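import Pool.Agent.TH948.HT.Core2
import Pool.Agent.TH541.J3932
import Pool.Agent.TH692.J3934
import Pool.Agent.TH692.J3935
import Pool.Agent.TH554.HT9
import Pool.Agent.TH952.HT.Q5
import Pool.Agent.TH938.Transfer
import Pool.Agent.TH148.HT_PQ

set_option autoImplicit false
set_option linter.unusedSectionVars false

/-!
# Fractional clique decompositions at the hitting time
-/

namespace Pool.Agent.TH948.HT

open Finset
open scoped Classical
open Pool.Agent.TH965.Spread Pool.Agent.TH948.KK Pool.Agent.TH948.BD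

lemma log_div_tendsto' : Filter.Tendsto (fun n : ℕ => Real.log (n : ℝ) / n) Filter.atTop (nhds 0) := by
  have h := Real.isLittleO_log_id_atTop.tendsto_div_nhds_zero
  exact h.comp tendsto_natCast_atTop_atTop

lemma dens_ev {k : ℕ} (hk : 2 ≤ k) (δ : ℝ) (h0 : 0 < δ) (h1 : δ ≤ 1 / 8) :
    ∀ᶠ n : ℕ in Filter.atTop, 0 ≤ pm k δ n ∧ pm k δ n < 1 ∧ 0 ≤ bb k δ n ∧ bb k δ n ≤ 1 ∧
      pm k δ n + bb k δ n - pm k δ n * bb k δ n = pp k δ n ∧ 0 ≤ pp k δ n ∧ pp k δ n ≤ 1 := by
  have hk1 : (1 : ℝ) ≤ (k : ℝ) - 1 := by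
    have : (2 : ℝ) ≤ k := by exact_mod_cast hk
    linarith
  have hT : Filter.Tendsto (fun n : ℕ => pp k δ n) Filter.atTop (nhds 0) := by
    have h := log_div_tendsto'.const_mul ((1 + δ) * ((k : ℝ) - 1))
    rw [mul_zero] at h
    refine h.congr (fun n => ?_)
    unfold pp
    ring
  filter_upwards [hT.eventually_lt_const (by norm_num : (0 : ℝ) < 1), Filter.eventually_ge_atTop 2]
    with n hn hn2
  have hnpos : (0 : ℝ) < n := by
    have : 0 < n := by omega
    exact_mod_cast this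
  have hlog : 0 < Real.log n := by
    apply Real.log_pos
    have : 1 < n := by omega
    exact_mod_cast this
  have hd : 0 < ((k : ℝ) - 1) * Real.log n := by positivity
  have hpm0 : 0 ≤ pm k δ n := by
    unfold pm
    apply div_nonneg _ hnpos.le
    exact mul_nonneg (by linarith) hd.le
  have hpmpp : pm k δ n ≤ pp k δ n := by
    unfold pm pp
    apply div_le_div_of_nonneg_right _ hnpos.le
    apply mul_le_mul_of_nonneg_right _ hd.le
    linarith
  have hpm1 : pm k δ n < 1 := lt_of_le_of_lt hpmpp hn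
  have h1m : 0 < 1 - pm k δ n := by linarith
  refine ⟨hpm0, hpm1, ?_, ?_, ?_, hpm0.trans hpmpp, hn.le⟩
  · unfold bb
    exact div_nonneg (by linarith) h1m.le
  · unfold bb
    rw [div_le_one h1m]
    linarith
  · have : bb k δ n * (1 - pm k δ n) = pp k δ n - pm k δ n := by
      unfold bb
      exact div_mul_cancel₀ _ h1m.ne'
    linarith

lemma ind_or_le (P Q : Prop) : ind (P ∨ Q) ≤ ind P + ind Q := by
  by_cases hP : P
  · rw [ind_true (Or.inl hP), ind_true hP]
    linarith [ind_nonneg Q]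
  · by_cases hQ : Q
    · rw [ind_true (Or.inr hQ), ind_true hQ]
      linarith [ind_nonneg P]
    · rw [ind_false (by tauto)]
      linarith [ind_nonneg P, ind_nonneg Q]

/-- In the random order of all `k`-sets, with probability tending to one, the facets are all covered
exactly when a fractional decomposition exists. -/
theorem main (k : ℕ) (hk : 2 ≤ k) :
      Filter.Tendsto
        (fun n : ℕ =>
          ((Finset.univ.filter
              (fun σ : Fin (n.choose k) ≃ {s : Finset (Fin n) // s.card = k} =>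
                ∀ t : ℕ,
                  ((∀ f : Finset (Fin n), f.card = k - 1 →
                      ∃ i : Fin (n.choose k), i.val < t ∧ f ⊆ (σ i).val) ↔
                    (∃ w : Finset (Fin n) → ℝ,
                      (∀ e, 0 ≤ w e ∧ w e ≤ 1) ∧
                      ∀ f : Finset (Fin n), f.card = k - 1 →
                        ∑ i ∈ Finset.univ.filter
                            (fun i : Fin (n.choose k) => i.val < t ∧ f ⊆ (σ i).val),
                          w (σ i).val = 1)))).card : ℝ) /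
            (Fintype.card (Fin (n.choose k) ≃ {s : Finset (Fin n) // s.card = k}) : ℝ))
        Filter.atTop (nhds 1) := by
  obtain ⟨a, c₁, c₃, c, ha, hc₁, hc₃, hc, hcore⟩ := core hk
  obtain ⟨δ, hδ0, hδ1, hdt⟩ := dt_of_core hk c hc
  obtain ⟨ε, hε, hP4⟩ := prob_Q4 hk c₃ hc₃
  obtain ⟨K, B, hK, hcore⟩ := hcore ε hε
  obtain ⟨K₃, hP3⟩ := prob_Q3 hk δ hδ0 hδ1
  obtain ⟨hP1, hPc, hPc'⟩ := prob_Q1_cov hk δ hδ0 hδ1
  have hP2 := prob_Q2 hk δ hδ0 hδ1
  have hP4 := hP4 δ hδ0 hδ1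
  have hP5 := prob_Q5 hk δ hδ0 hδ1 a c₁ K ha hc₁ hK B
  have hsum := (((((hPc'.add hPc).add hP1).add hP2).add hP3).add hP4).add hP5
  simp only [add_zero] at hsum
  have hlow := (tendsto_const_nhds (x := (1 : ℝ)) (f := (Filter.atTop : Filter ℕ))).sub hsum
  rw [sub_zero] at hlow
  refine tendsto_of_tendsto_of_tendsto_of_le_of_le' hlow tendsto_const_nhds ?_ ?_
  · filter_upwards [dens_ev hk δ hδ0 hδ1, hdt K₃, hcore] with n hd hdt hcore
    obtain ⟨hpm0, hpm1, hbb0, hbb1, hpp, hpp0, hpp1⟩ := hd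
    have htr := transfer (n := n) (k := k) (by omega) (pm k δ n) (bb k δ n) hpm0 hpm1.le hbb0 hbb1
      (fun H₁ H₂ => Cov k H₁ ∨ ¬ Cov k H₂ ∨ ¬ Q1 k (5 * k) H₂ ∨ ¬ Q2 k (1 / 20) H₁ H₂ ∨
        ¬ Q3 k (4 * δ) K₃ H₁ H₂ ∨ ¬ Q4 k ε c₃ H₂ ∨ ¬ Q5 k a c₁ K (c₁ / 8) B H₁)
      (by
        intro H₁ H H₂ h1 h2 h3 hb hcov
        push Not at hb
        obtain ⟨_, _, hq1, hq2, hq3, hq4, hq5⟩ := hb
        exact hdt H₁ H H₂ h1 h2 h3 hq1 hq2 hq3
          (fun F' hF' H' hH' ha hb' y hy => hcore H₁ H' H₂ (h1.trans h2) (hH'.trans h2) h3 hq4 hq5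
            F' hF' ha hb' y hy) hcov)
      (by
        intro H₁ H₂ _ _ hb
        push Not at hb
        exact ⟨hb.1, hb.2.1⟩)
    refine le_trans ?_ htr
    apply sub_le_sub_left
    have hU : ∀ G : Finset (Finset (Fin n)) → ℝ,
        exs (edges n k) (pm k δ n) (fun W => exs (edges n k) (bb k δ n) (fun U => G (W ∪ U)))
          = exs (edges n k) (pp k δ n) G := by
      intro G
      rw [← hpp, exs_union]
    have hC : exs (edges n k) (pm k δ n) (fun W => exs (edges n k) (bb k δ n)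
        (fun _ => ind (Cov k W))) = exs (edges n k) (pm k δ n) (fun W => ind (Cov k W)) := by
      apply exs_congr
      intro W _
      rw [exs_const]
    have hC5 : exs (edges n k) (pm k δ n) (fun W => exs (edges n k) (bb k δ n)
        (fun _ => ind (¬ Q5 k a c₁ K (c₁ / 8) B W)))
        = exs (edges n k) (pm k δ n) (fun W => ind (¬ Q5 k a c₁ K (c₁ / 8) B W)) := by
      apply exs_congr
      intro W _
      rw [exs_const]
    rw [← hC, ← hC5, ← hU (fun W => ind (¬ Cov k W)), ← hU (fun W => ind (¬ Q1 k (5 * k) W)),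
      ← hU (fun W => ind (¬ Q4 k ε c₃ W))]
    rw [← exs_add, ← exs_add, ← exs_add, ← exs_add, ← exs_add, ← exs_add]
    apply exs_mono _ hpm0 hpm1.le
    intro W _
    rw [← exs_add, ← exs_add, ← exs_add, ← exs_add, ← exs_add, ← exs_add]
    apply exs_mono _ hbb0 hbb1
    intro U _
    have i1 := ind_or_le (Cov k W) (¬ Cov k (W ∪ U) ∨ ¬ Q1 k (5 * k) (W ∪ U) ∨
        ¬ Q2 k (1 / 20) W (W ∪ U) ∨
        ¬ Q3 k (4 * δ) K₃ W (W ∪ U) ∨ ¬ Q4 k ε c₃ (W ∪ U) ∨ ¬ Q5 k a c₁ K (c₁ / 8) B W)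
    have i2 := ind_or_le (¬ Cov k (W ∪ U)) (¬ Q1 k (5 * k) (W ∪ U) ∨
        ¬ Q2 k (1 / 20) W (W ∪ U) ∨
        ¬ Q3 k (4 * δ) K₃ W (W ∪ U) ∨ ¬ Q4 k ε c₃ (W ∪ U) ∨ ¬ Q5 k a c₁ K (c₁ / 8) B W)
    have i3 := ind_or_le (¬ Q1 k (5 * k) (W ∪ U)) (¬ Q2 k (1 / 20) W (W ∪ U) ∨
        ¬ Q3 k (4 * δ) K₃ W (W ∪ U) ∨ ¬ Q4 k ε c₃ (W ∪ U) ∨ ¬ Q5 k a c₁ K (c₁ / 8) B W)
    have i4 := ind_or_le (¬ Q2 k (1 / 20) W (W ∪ U)) (¬ Q3 k (4 * δ) K₃ W (W ∪ U) ∨
        ¬ Q4 k ε c₃ (W ∪ U) ∨ ¬ Q5 k a c₁ K (c₁ / 8) B W)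
    have i5 := ind_or_le (¬ Q3 k (4 * δ) K₃ W (W ∪ U)) (¬ Q4 k ε c₃ (W ∪ U) ∨
        ¬ Q5 k a c₁ K (c₁ / 8) B W)
    have i6 := ind_or_le (¬ Q4 k ε c₃ (W ∪ U)) (¬ Q5 k a c₁ K (c₁ / 8) B W)
    linarith
  · apply Filter.Eventually.of_forall
    intro n
    apply div_le_one_of_le₀ _ (by positivity)
    have := Finset.card_le_univ (Finset.univ.filter
              (fun σ : Fin (n.choose k) ≃ {s : Finset (Fin n) // s.card = k} =>
                ∀ t : ℕ,
                  ((∀ f : Finset (Fin n), f.card = k - 1 →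
                      ∃ i : Fin (n.choose k), i.val < t ∧ f ⊆ (σ i).val) ↔
                    (∃ w : Finset (Fin n) → ℝ,
                      (∀ e, 0 ≤ w e ∧ w e ≤ 1) ∧
                      ∀ f : Finset (Fin n), f.card = k - 1 →
                        ∑ i ∈ Finset.univ.filter
                            (fun i : Fin (n.choose k) => i.val < t ∧ f ⊆ (σ i).val),
                          w (σ i).val = 1))))
    exact_mod_cast this

end Pool.Agent.TH948.HT
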