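import Mathlib
import Pool.Agent.TH948.BD.Ground

set_option autoImplicit false
set_option linter.unusedSectionVars false

/-!
# Fractional clique decompositions in the hypergraph process: definitions
-/

namespace Pool.Agent.TH948.HT

open Finset
open scoped Classical
open Pool.Agent.TH965.Spread Pool.Agent.TH948.KK Pool.Agent.TH948.BD

noncomputable section

/-- The facets: all sets of `k - 1` points. -/
def facets (n k : ℕ) : Finset (Finset (Fin n)) := (univ : Finset (Fin n)).powersetCard (k - 1)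

/-- All possible edges: the sets of `k` points. -/
def edges (n k : ℕ) : Finset (Finset (Fin n)) := (univ : Finset (Fin n)).powersetCard k

/-- The number of members of `H` that contain `f`. -/
def deg {n : ℕ} (H : Finset (Finset (Fin n))) (f : Finset (Fin n)) : ℕ :=
  (H.filter (fun e => f ⊆ e)).card

/-- The sum of `y` over the facets of `e`. -/
def fs {n : ℕ} (k : ℕ) (y : Finset (Fin n) → ℝ) (e : Finset (Fin n)) : ℝ :=
  ∑ f ∈ e.powersetCard (k - 1), y f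

/-- Every facet is covered. -/
def Cov {n : ℕ} (k : ℕ) (H : Finset (Finset (Fin n))) : Prop :=
  ∀ f ∈ facets n k, ∃ e ∈ H, f ⊆ e

/-- There is a fractional decomposition. -/
def Frac {n : ℕ} (k : ℕ) (H : Finset (Finset (Fin n))) : Prop :=
  ∃ w : Finset (Fin n) → ℝ, (∀ e, 0 ≤ w e ∧ w e ≤ 1) ∧
    ∀ f ∈ facets n k, ∑ e ∈ H.filter (fun e => f ⊆ e), w e = 1

/-- The edges with a light pair of facets of `T`. -/
def lp {n : ℕ} (k : ℕ) (ε : ℝ) (T : Finset (Finset (Fin n))) : Finset (Finset (Fin n)) :=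
  (edges n k).filter (fun e => ∃ f ∈ T, ∃ g ∈ T, f ≠ g ∧ f ⊆ e ∧ g ⊆ e ∧
    (deg T (f ∩ g) : ℝ) < ε * n)

/-- Bounded degrees. -/
def Q1 {n : ℕ} (k : ℕ) (C : ℝ) (H : Finset (Finset (Fin n))) : Prop :=
  ∀ f ∈ facets n k, (deg H f : ℝ) ≤ C * Real.log n

/-- Facets of small degree are far apart. -/
def Q2 {n : ℕ} (k : ℕ) (η : ℝ) (H₁ H₂ : Finset (Finset (Fin n))) : Prop :=
  ∀ f ∈ facets n k, ∀ f' ∈ facets n k, (deg H₁ f : ℝ) < η * Real.log n →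
    (deg H₁ f' : ℝ) < η * Real.log n → ∀ e₁ ∈ H₂, ∀ e₂ ∈ H₂, ∀ e₃ ∈ H₂, ∀ e₄ ∈ H₂, f ⊆ e₁ →
      k - 1 ≤ (e₁ ∩ e₂).card → k - 1 ≤ (e₂ ∩ e₃).card → k - 1 ≤ (e₃ ∩ e₄).card → f' ⊆ e₄ → f = f'

/-- Every facet has few edges with another atypical facet. -/
def Q3 {n : ℕ} (k : ℕ) (δ : ℝ) (K : ℕ) (H₁ H₂ : Finset (Finset (Fin n))) : Prop :=
  ∀ h ∈ facets n k, (H₂.filter (fun e => h ⊆ e ∧ ∃ g ∈ facets n k, g ≠ h ∧ g ⊆ e ∧
    ((deg H₁ g : ℝ) < (1 - δ) * (((k : ℝ) - 1) * Real.log n) ∨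
      (1 + δ) * (((k : ℝ) - 1) * Real.log n) < (deg H₂ g : ℝ)))).card ≤ K

/-- Few edges have a light pair. -/
def Q4 {n : ℕ} (k : ℕ) (ε c : ℝ) (H : Finset (Finset (Fin n))) : Prop :=
  ∀ T ⊆ facets n k, ((H ∩ lp k ε T).card : ℝ) ≤ c * T.card * Real.log n

/-- Integer vectors of small complexity are well distributed on `H`. -/
def Q5 {n : ℕ} (k : ℕ) (a c₁ K c₂ : ℝ) (B : ℕ) (H : Finset (Finset (Fin n))) : Prop :=
  ∀ (s : ℕ) (R : Finset (Finset (Fin n))) (z : Finset (Fin n) → ℤ), 1 ≤ s →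
    R ⊆ (univ : Finset (Fin n)).powersetCard (k - 2) →
    (∀ f, z f ≠ 0 → f ∈ facets n k ∧ ∃ ρ ∈ R, ρ ⊆ f) → (R.card : ℝ) * n ≤ K * s →
    ∏ f ∈ facets n k, (1 + |z f|) ≤ (B : ℤ) ^ s →
    c₁ * s * n ≤ (((edges n k).filter (fun e => a ≤ |fs k (fun f => (z f : ℝ)) e|)).card : ℝ) →
    c₂ * s * Real.log n ≤ ((H.filter (fun e => a ≤ |fs k (fun f => (z f : ℝ)) e|)).card : ℝ)

/-- The smaller density. -/
def pm (k : ℕ) (δ : ℝ) (n : ℕ) : ℝ := (1 - δ) * (((k : ℝ) - 1) * Real.log n) / n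

/-- The larger density. -/
def pp (k : ℕ) (δ : ℝ) (n : ℕ) : ℝ := (1 + δ) * (((k : ℝ) - 1) * Real.log n) / n

/-- The density of the increment: `pm + bb - pm * bb = pp`. -/
def bb (k : ℕ) (δ : ℝ) (n : ℕ) : ℝ := (pp k δ n - pm k δ n) / (1 - pm k δ n)

/-- The number of values of `y` in the dyadic level `j`. -/
def lev {X : Type} (F : Finset X) (y : X → ℝ) (j : ℤ) : ℕ :=
  (F.filter (fun f => (2 : ℝ) ^ j ≤ |y f| ∧ |y f| < (2 : ℝ) ^ (j + 1))).card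

/-- Good levels. -/
def GoodLev {X : Type} (F : Finset X) (y : X → ℝ) (j : ℤ) : Prop :=
  1 ≤ lev F y j ∧ ∀ i : ℤ, (2 : ℝ) ^ i * lev F y i ≤
    (3 / 2 : ℝ) ^ (i - j).natAbs * ((2 : ℝ) ^ j * lev F y j)

end

end Pool.Agent.TH948.HT
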