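import Pool.Agent.TH948.HT.Defs
import Pool.Agent.TH113.HT1

set_option autoImplicit false
set_option linter.unusedSectionVars false

/-!
# The L1 inequality at a good level
-/

namespace Pool.Agent.TH948.HT

open Finset
open scoped Classical
open Pool.Agent.TH965.Spread Pool.Agent.TH948.KK Pool.Agent.TH948.BD

noncomputable section

lemma mem_facets {n k : ℕ} {f : Finset (Fin n)} : f ∈ facets n k ↔ f.card = k - 1 := by
  unfold facets
  rw [Finset.mem_powersetCard]
  simp

lemma mem_edges {n k : ℕ} {f : Finset (Fin n)} : f ∈ edges n k ↔ f.card = k := by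
  unfold edges
  rw [Finset.mem_powersetCard]
  simp

/-- Two different facets of an edge meet in `k - 2` points. -/
lemma inter_card {n k : ℕ} (hk : 2 ≤ k) {f g e : Finset (Fin n)} (hf : f.card = k - 1)
    (hg : g.card = k - 1) (he : e.card = k) (hfe : f ⊆ e) (hge : g ⊆ e) (hne : f ≠ g) :
    (f ∩ g).card = k - 2 := by
  have h1 := Finset.card_union_add_card_inter f g
  have h2 : (f ∪ g).card ≤ k := by
    rw [← he]; exact Finset.card_le_card (Finset.union_subset hfe hge)
  have h3 : (f ∩ g).card < f.card := by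
    apply Finset.card_lt_card
    refine ⟨Finset.inter_subset_left, fun h => hne ?_⟩
    have h4 : f ⊆ g := fun x hx => (Finset.mem_inter.mp (h hx)).2
    exact Finset.eq_of_subset_of_card_le h4 (by omega)
  omega

/-- Rounding towards zero. -/
def tr (t : ℝ) : ℤ := if 0 ≤ t then ⌊t⌋ else ⌈t⌉

lemma tr_abs_le (t : ℝ) : |(tr t : ℝ)| ≤ |t| := by
  unfold tr
  split_ifs with h
  · rw [abs_of_nonneg h, abs_of_nonneg (by exact_mod_cast Int.floor_nonneg.mpr h)]
    exact Int.floor_le t
  · push Not at h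
    have h1 : ⌈t⌉ ≤ 0 := Int.ceil_le.mpr (by exact_mod_cast h.le)
    rw [abs_of_neg h, abs_of_nonpos (by exact_mod_cast h1)]
    linarith [Int.le_ceil t]

lemma tr_sub_le (t : ℝ) : |t - (tr t : ℝ)| ≤ 1 := by
  unfold tr
  split_ifs with h
  · rw [abs_le]
    constructor
    · linarith [Int.floor_le t]
    · linarith [Int.lt_floor_add_one t]
  · rw [abs_le]
    constructor
    · linarith [Int.ceil_lt_add_one t]
    · linarith [Int.le_ceil t]

lemma card_facets_of_edge {n k : ℕ} (hk : 2 ≤ k) {e : Finset (Fin n)} (he : e.card = k) :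
    (e.powersetCard (k - 1)).card = k := by
  rw [Finset.card_powersetCard, he]
  exact Nat.choose_symm_of_eq_add (by omega) |>.trans (Nat.choose_one_right k)

/-- The count at one good level. -/
theorem core_star {n k : ℕ} (hk : 2 ≤ k) (hn : 2 * k ≤ n) (g Kg B : ℕ) (y : Finset (Fin n) → ℝ)
    (j : ℤ) (hs1 : 1 ≤ lev (facets n k) y j)
    (hT : ((facets n k).filter (fun f => (2 : ℝ) ^ (j - g) ≤ |y f|)).card
      ≤ Kg * lev (facets n k) y j)
    (hB : ∀ z : Finset (Fin n) → ℤ, (∀ f ∈ facets n k, |(z f : ℝ)| ≤ |y f| / (2 : ℝ) ^ (j - g)) →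
        ∏ f ∈ facets n k, (1 + |z f|) ≤ (B : ℤ) ^ (lev (facets n k) y j))
    (ε c₂ c₃ K : ℝ) (hε : 0 < ε) (hc₂ : 0 < c₂) (hc₃ : 0 < c₃)
    (hg : (k : ℝ) * (4 * 4 ^ k) ≤ 2 ^ g) (hlog : 0 < Real.log n)
    (h80 : k * (c₂ + c₃ * Kg) ≤ 1 / 80) (h32 : c₃ * Kg ≤ 1 / (2 * (4 * k) ^ k) / 32)
    (h32' : c₂ ≤ 1 / (2 * (4 * (k : ℝ)) ^ k) / 32)
    (h32'' : 2 * (Kg : ℝ) ≤ 1 / (2 * (4 * (k : ℝ)) ^ k) / 32 * Real.log n)
    (hK : k * Kg / ε ≤ K) (H₁ H' H₂ : Finset (Finset (Fin n))) (h12 : H₁ ⊆ H₂) (h'2 : H' ⊆ H₂)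
    (hH₂ : H₂ ⊆ edges n k) (hQ4 : Q4 k ε c₃ H₂)
    (hQ5 : Q5 k (2 ^ g / 4 ^ k - k) (1 / (2 * (4 * (k : ℝ)) ^ k)) K
      (1 / (2 * (4 * (k : ℝ)) ^ k) / 8) B H₁)
    (F' : Finset (Finset (Fin n)))
    (hdeg : ∀ f ∈ F', (1 / 40 : ℝ) * Real.log n ≤ deg H' f)
    (hloss : ∀ f ∈ F', ((H₁.filter (fun e => f ⊆ e)) \ H').card ≤ 2)
    (hy : ∀ f, y f ≠ 0 → f ∈ F') :
    c₂ * Real.log n * lev (facets n k) y j
      ≤ ((H'.filter (fun e => (1 / 4 ^ k / 4) * (2 : ℝ) ^ j ≤ |fs k y e|)).card : ℝ) := by
  by_contra hcon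
  push Not at hcon
  set s := lev (facets n k) y j with hs
  set Hv := H'.filter (fun e => (1 / 4 ^ k / 4) * (2 : ℝ) ^ j ≤ |fs k y e|) with hHv
  set u : ℝ := (2 : ℝ) ^ j with hu
  have hu0 : 0 < u := by positivity
  have hkpos : (0 : ℝ) < k := by
    have : 0 < k := by omega
    exact_mod_cast this
  have hspos : (0 : ℝ) < s := by
    have : 0 < s := hs1
    exact_mod_cast this
  set c₁ : ℝ := 1 / (2 * (4 * (k : ℝ)) ^ k) with hc₁
  have hc₁0 : 0 < c₁ := by positivity
  -- the scale
  set v : ℝ := (2 : ℝ) ^ (j - g) with hv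
  have hv0 : 0 < v := by positivity
  have hvu : v * 2 ^ g = u := by
    rw [hv, hu, ← zpow_natCast, ← zpow_add₀ (by norm_num)]
    congr 1; ring
  have h4k : (0 : ℝ) < 4 ^ k := by positivity
  have hkv : k * v ≤ u / 4 ^ k / 4 := by
    rw [← hvu, div_div, le_div_iff₀ (by positivity)]
    nlinarith
  have hu4 : u / 4 ^ k ≤ u := by
    rw [div_le_iff₀ h4k]
    have : (1 : ℝ) ≤ 4 ^ k := one_le_pow₀ (by norm_num)
    nlinarith
  set S := (facets n k).filter (fun f => (2 : ℝ) ^ j ≤ |y f| ∧ |y f| < (2 : ℝ) ^ (j + 1)) with hS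
  have hScard : S.card = s := rfl
  set T := (facets n k).filter (fun f => v ≤ |y f|) with hTd
  have hTF : T ⊆ facets n k := Finset.filter_subset _ _
  have hvu' : v ≤ u := by
    rw [← hvu]
    have : (1 : ℝ) ≤ 2 ^ g := one_le_pow₀ (by norm_num)
    nlinarith
  have hST : S ⊆ T := by
    intro f hf
    rw [hS, Finset.mem_filter] at hf
    rw [hTd, Finset.mem_filter]
    exact ⟨hf.1, hvu'.trans hf.2.1⟩
  set R := ((univ : Finset (Fin n)).powersetCard (k - 2)).filter
    (fun ρ => ε * n ≤ (deg T ρ : ℝ)) with hR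
  set Ts := T.filter (fun f => ∃ ρ ∈ R, ρ ⊆ f) with hTs
  set LP := H₂ ∩ lp k ε T with hLP
  have hLPcard : (LP.card : ℝ) ≤ c₃ * Kg * s * Real.log n := by
    have h1 := hQ4 T hTF
    have h2 : (T.card : ℝ) ≤ Kg * s := by exact_mod_cast hT
    calc (LP.card : ℝ) ≤ c₃ * T.card * Real.log n := h1
      _ ≤ c₃ * (Kg * s) * Real.log n := by
          apply mul_le_mul_of_nonneg_right _ hlog.le
          exact mul_le_mul_of_nonneg_left h2 hc₃.le
      _ = _ := by ring
  -- light pairs
  have hlight : ∀ e ∈ edges n k, ∀ f ∈ T, f ∉ Ts → ∀ f' ∈ T, f ≠ f' → f ⊆ e → f' ⊆ e →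
      e ∈ lp k ε T := by
    intro e he f hf hfs f' hf' hne hfe hfe'
    unfold lp
    rw [Finset.mem_filter]
    refine ⟨he, f, hf, f', hf', hne, hfe, hfe', ?_⟩
    by_contra hc
    push Not at hc
    apply hfs
    rw [hTs, Finset.mem_filter]
    refine ⟨hf, f ∩ f', ?_, Finset.inter_subset_left⟩
    rw [hR, Finset.mem_filter, Finset.mem_powersetCard]
    exact ⟨⟨Finset.subset_univ _, inter_card hk (mem_facets.mp (hTF hf))
      (mem_facets.mp (hTF hf')) (mem_edges.mp he) hfe hfe' hne⟩, hc⟩
  -- Claim A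
  have hA1 : ∀ f ∈ S \ Ts, ∀ e ∈ H', f ⊆ e → e ∈ Hv ∪ LP := by
    intro f hf e he hfe
    rw [Finset.mem_sdiff] at hf
    have hfS := hf.1
    rw [hS, Finset.mem_filter] at hfS
    have heE : e ∈ edges n k := hH₂ (h'2 he)
    rw [Finset.mem_union]
    by_cases hev : e ∈ Hv
    · exact Or.inl hev
    right
    have hlt : |fs k y e| < (1 / 4 ^ k / 4) * u := by
      by_contra hc
      push Not at hc
      exact hev (Finset.mem_filter.mpr ⟨he, hc⟩)
    rw [hLP, Finset.mem_inter]
    refine ⟨h'2 he, ?_⟩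
    -- find another facet in T
    have hfe' : f ∈ e.powersetCard (k - 1) :=
      Finset.mem_powersetCard.mpr ⟨hfe, mem_facets.mp hfS.1⟩
    obtain ⟨f', hf', hne, hf'T⟩ : ∃ f' ∈ e.powersetCard (k - 1), f' ≠ f ∧ v ≤ |y f'| := by
      by_contra hno
      push Not at hno
      have h1 : fs k y e = y f + ∑ f' ∈ (e.powersetCard (k - 1)).erase f, y f' := by
        unfold fs
        rw [Finset.add_sum_erase _ _ hfe']
      have h2 : |∑ f' ∈ (e.powersetCard (k - 1)).erase f, y f'| ≤ k * v := by
        calc _ ≤ ∑ f' ∈ (e.powersetCard (k - 1)).erase f, |y f'| := Finset.abs_sum_le_sum_abs _ _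
          _ ≤ ∑ f' ∈ (e.powersetCard (k - 1)).erase f, v := by
              apply Finset.sum_le_sum
              intro f' hf'
              rw [Finset.mem_erase] at hf'
              exact (hno f' hf'.2 hf'.1).le
          _ ≤ k * v := by
              rw [Finset.sum_const, nsmul_eq_mul]
              apply mul_le_mul_of_nonneg_right _ hv0.le
              have h3 : ((e.powersetCard (k - 1)).erase f).card ≤ k :=
                (Finset.card_erase_le).trans (card_facets_of_edge hk (mem_edges.mp heE)).le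
              exact_mod_cast h3
      have h3 : u ≤ |y f| := hfS.2.1
      have h4 : |y f| ≤ |fs k y e| + k * v := by
        have h5 : y f = fs k y e - ∑ f' ∈ (e.powersetCard (k - 1)).erase f, y f' := by
          rw [h1]; ring
        calc |y f| = |fs k y e - ∑ f' ∈ (e.powersetCard (k - 1)).erase f, y f'| := by rw [← h5]
          _ ≤ |fs k y e| + |∑ f' ∈ (e.powersetCard (k - 1)).erase f, y f'| := abs_sub _ _
          _ ≤ _ := by linarith
      have h6 : (1 / 4 ^ k / 4) * u = u / 4 ^ k / 4 := by ring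
      rw [h6] at hlt
      linarith
    rw [Finset.mem_powersetCard] at hf'
    have hf'T' : f' ∈ T := by
      rw [hTd, Finset.mem_filter]
      exact ⟨mem_facets.mpr hf'.2, hf'T⟩
    exact hlight e heE f (hST hf.1) hf.2 f' hf'T' (Ne.symm hne) hfe hf'.1
  have hA2 : (((S \ Ts).card : ℝ)) * ((1 / 40) * Real.log n) ≤ k * ((Hv ∪ LP).card : ℝ) := by
    have h1 : ∑ f ∈ S \ Ts, ((1 / 40 : ℝ) * Real.log n) ≤ ∑ f ∈ S \ Ts, (deg H' f : ℝ) := by
      apply Finset.sum_le_sum
      intro f hf
      apply hdeg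
      apply hy
      rw [Finset.mem_sdiff, hS, Finset.mem_filter] at hf
      intro h0
      have := hf.1.2.1
      rw [h0, abs_zero] at this
      linarith
    rw [Finset.sum_const, nsmul_eq_mul] at h1
    refine h1.trans ?_
    have h2 : ∑ f ∈ S \ Ts, (deg H' f : ℝ)
        = ∑ f ∈ S \ Ts, ∑ e ∈ H', (if f ⊆ e then (1 : ℝ) else 0) := by
      apply Finset.sum_congr rfl
      intro f _
      unfold deg
      rw [Finset.card_filter]
      push_cast
      rfl
    rw [h2, Finset.sum_comm]
    have h3 : ∀ e ∈ H', ∑ f ∈ S \ Ts, (if f ⊆ e then (1 : ℝ) else 0)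
        ≤ if e ∈ Hv ∪ LP then (k : ℝ) else 0 := by
      intro e he
      split_ifs with hZ
      · rw [← Finset.sum_filter, Finset.sum_const, nsmul_eq_mul, mul_one]
        have h4 : ((S \ Ts).filter (fun f => f ⊆ e)) ⊆ e.powersetCard (k - 1) := by
          intro f hf
          rw [Finset.mem_filter, Finset.mem_sdiff] at hf
          rw [Finset.mem_powersetCard]
          refine ⟨hf.2, mem_facets.mp (hTF (hST hf.1.1))⟩
        have h5 := Finset.card_le_card h4
        rw [card_facets_of_edge hk (mem_edges.mp (hH₂ (h'2 he)))] at h5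
        exact_mod_cast h5
      · apply le_of_eq
        apply Finset.sum_eq_zero
        intro f hf
        rw [if_neg]
        intro hfe
        exact hZ (hA1 f hf e he hfe)
    calc ∑ e ∈ H', ∑ f ∈ S \ Ts, (if f ⊆ e then (1 : ℝ) else 0)
        ≤ ∑ e ∈ H', (if e ∈ Hv ∪ LP then (k : ℝ) else 0) := Finset.sum_le_sum h3
      _ = ((H'.filter (fun e => e ∈ Hv ∪ LP)).card : ℝ) * k := by
          rw [← Finset.sum_filter, Finset.sum_const, nsmul_eq_mul]
      _ ≤ ((Hv ∪ LP).card : ℝ) * k := by
          apply mul_le_mul_of_nonneg_right _ hkpos.le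
          have : (H'.filter (fun e => e ∈ Hv ∪ LP)) ⊆ Hv ∪ LP := by
            intro e he
            exact (Finset.mem_filter.mp he).2
          exact_mod_cast Finset.card_le_card this
      _ = _ := by ring
  have hunion : ((Hv ∪ LP).card : ℝ) ≤ (c₂ + c₃ * Kg) * s * Real.log n := by
    have h1 : ((Hv ∪ LP).card : ℝ) ≤ Hv.card + LP.card := by
      exact_mod_cast Finset.card_union_le Hv LP
    have h2 : (Hv.card : ℝ) ≤ c₂ * Real.log n * s := hcon.le
    calc _ ≤ (Hv.card : ℝ) + LP.card := h1
      _ ≤ c₂ * Real.log n * s + c₃ * Kg * s * Real.log n := add_le_add h2 hLPcard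
      _ = _ := by ring
  have hA3 : ((S \ Ts).card : ℝ) ≤ s / 2 := by
    have h1 : (((S \ Ts).card : ℝ)) * ((1 / 40) * Real.log n)
        ≤ (1 / 80) * (s * Real.log n) := by
      calc _ ≤ k * ((Hv ∪ LP).card : ℝ) := hA2
        _ ≤ k * ((c₂ + c₃ * Kg) * s * Real.log n) := mul_le_mul_of_nonneg_left hunion hkpos.le
        _ = (k * (c₂ + c₃ * Kg)) * (s * Real.log n) := by ring
        _ ≤ _ := mul_le_mul_of_nonneg_right h80 (by positivity)
    have h2 : (((S \ Ts).card : ℝ)) * ((1 / 40) * Real.log n)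
        ≤ (s / 2) * ((1 / 40) * Real.log n) := by
      linarith
    exact le_of_mul_le_mul_right h2 (by positivity)
  have hA4 : (s : ℝ) / 2 ≤ ((S ∩ Ts).card : ℝ) := by
    have h1 : ((S \ Ts).card : ℝ) + ((S ∩ Ts).card : ℝ) = s := by
      rw [← hScard]
      exact_mod_cast Finset.card_sdiff_add_card_inter S Ts
    linarith
  -- Claim B
  set ys : Finset (Fin n) → ℝ := fun f => if f ∈ Ts then y f else 0 with hys
  set z : Finset (Fin n) → ℤ := fun f => if f ∈ Ts then tr (y f / v) else 0 with hz
  have hround : ∀ e ∈ edges n k, |fs k ys e - v * fs k (fun f => (z f : ℝ)) e| ≤ k * v := by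
    intro e he
    unfold fs
    rw [Finset.mul_sum, ← Finset.sum_sub_distrib]
    calc _ ≤ ∑ f ∈ e.powersetCard (k - 1), |ys f - v * (z f : ℝ)| :=
          Finset.abs_sum_le_sum_abs _ _
      _ ≤ ∑ f ∈ e.powersetCard (k - 1), v := by
          apply Finset.sum_le_sum
          intro f _
          rw [hys, hz]
          beta_reduce
          split_ifs with h
          · have h1 : y f - v * (tr (y f / v) : ℝ) = v * (y f / v - (tr (y f / v) : ℝ)) := by
              field_simp
            rw [h1, abs_mul, abs_of_pos hv0]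
            have := tr_sub_le (y f / v)
            nlinarith
          · simp [hv0.le]
      _ = k * v := by
          rw [Finset.sum_const, nsmul_eq_mul, card_facets_of_edge hk (mem_edges.mp he)]
  have hgad := gadget_count hk hn ys u hu0 (S ∩ Ts)
    (Finset.inter_subset_left.trans (hST.trans hTF)) (by
      intro f hf
      rw [Finset.mem_inter] at hf
      rw [hys]
      beta_reduce
      rw [if_pos hf.2]
      exact (Finset.mem_filter.mp hf.1).2.1)
  have hsub : (edges n k).filter (fun e => u / 4 ^ k ≤ |fs k ys e|) ⊆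
      (edges n k).filter (fun e => (2 : ℝ) ^ g / 4 ^ k - k ≤ |fs k (fun f => (z f : ℝ)) e|) := by
    intro e he
    rw [Finset.mem_filter] at he ⊢
    refine ⟨he.1, ?_⟩
    have h1 := hround e he.1
    have h2 : |fs k ys e| ≤ v * |fs k (fun f => (z f : ℝ)) e| + k * v := by
      have h3 : fs k ys e = v * fs k (fun f => (z f : ℝ)) e
          + (fs k ys e - v * fs k (fun f => (z f : ℝ)) e) := by ring
      calc |fs k ys e| = |v * fs k (fun f => (z f : ℝ)) e
          + (fs k ys e - v * fs k (fun f => (z f : ℝ)) e)| := by rw [← h3]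
        _ ≤ |v * fs k (fun f => (z f : ℝ)) e|
          + |fs k ys e - v * fs k (fun f => (z f : ℝ)) e| := abs_add_le _ _
        _ ≤ _ := by rw [abs_mul, abs_of_pos hv0]; linarith
    have h4 : u / 4 ^ k = v * (2 ^ g / 4 ^ k) := by rw [← hvu]; ring
    have h5 : v * (2 ^ g / 4 ^ k - k) ≤ v * |fs k (fun f => (z f : ℝ)) e| := by
      rw [mul_sub, ← h4]; linarith [he.2]
    exact le_of_mul_le_mul_left h5 hv0
  have hcount : c₁ * s * n ≤ (((edges n k).filter
      (fun e => (2 : ℝ) ^ g / 4 ^ k - k ≤ |fs k (fun f => (z f : ℝ)) e|)).card : ℝ) := by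
    have h1 : ((((edges n k).filter (fun e => u / 4 ^ k ≤ |fs k ys e|)).card : ℝ))
        ≤ (((edges n k).filter
      (fun e => (2 : ℝ) ^ g / 4 ^ k - k ≤ |fs k (fun f => (z f : ℝ)) e|)).card : ℝ) := by
      exact_mod_cast Finset.card_le_card hsub
    refine le_trans ?_ (hgad.trans h1)
    have h2 : (s / 2 : ℝ) * n / (4 * k) ^ k ≤ ((S ∩ Ts).card : ℝ) * n / (4 * k) ^ k := by
      apply div_le_div_of_nonneg_right _ (by positivity)
      exact mul_le_mul_of_nonneg_right hA4 (by positivity)
    refine le_trans (le_of_eq ?_) h2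
    rw [hc₁]
    field_simp
  -- apply Q5
  have hQ := hQ5 s R z hs1 (Finset.filter_subset _ _) (by
      intro f hf
      rw [hz] at hf
      beta_reduce at hf
      have hfT : f ∈ Ts := by
        by_contra hc
        rw [if_neg hc] at hf
        exact hf rfl
      rw [hTs, Finset.mem_filter] at hfT
      exact ⟨hTF hfT.1, hfT.2⟩) (by
      -- number of heavy sets
      have h1 : (R.card : ℝ) * (ε * n) ≤ ∑ ρ ∈ R, (deg T ρ : ℝ) := by
        rw [← nsmul_eq_mul]
        apply Finset.card_nsmul_le_sum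
        intro ρ hρ
        exact (Finset.mem_filter.mp hρ).2
      have h2 : ∑ ρ ∈ R, (deg T ρ : ℝ) ≤ k * (T.card : ℝ) := by
        have h3 : ∑ ρ ∈ R, (deg T ρ : ℝ) = ∑ ρ ∈ R, ∑ f ∈ T, (if ρ ⊆ f then (1 : ℝ) else 0) := by
          apply Finset.sum_congr rfl
          intro ρ _
          unfold deg
          rw [Finset.card_filter]
          push_cast
          rfl
        rw [h3, Finset.sum_comm]
        calc _ ≤ ∑ f ∈ T, (k : ℝ) := by
              apply Finset.sum_le_sum
              intro f hf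
              rw [← Finset.sum_filter, Finset.sum_const, nsmul_eq_mul, mul_one]
              have h4 : (R.filter (fun ρ => ρ ⊆ f)) ⊆ f.powersetCard (k - 2) := by
                intro ρ hρ
                rw [Finset.mem_filter, hR, Finset.mem_filter, Finset.mem_powersetCard] at hρ
                rw [Finset.mem_powersetCard]
                exact ⟨hρ.2, hρ.1.1.2⟩
              have h5 := Finset.card_le_card h4
              rw [Finset.card_powersetCard, mem_facets.mp (hTF hf)] at h5
              have h6 : (k - 1).choose (k - 2) = k - 1 := by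
                obtain ⟨m, rfl⟩ : ∃ m, k = m + 2 := ⟨k - 2, by omega⟩
                have e1 : m + 2 - 1 = m + 1 := by omega
                have e2 : m + 2 - 2 = m := by omega
                rw [e1, e2, Nat.choose_succ_self_right]
              rw [h6] at h5
              have h7 : (R.filter (fun ρ => ρ ⊆ f)).card ≤ k := by omega
              exact_mod_cast h7
          _ = _ := by rw [Finset.sum_const, nsmul_eq_mul]; ring
      have h3 : (T.card : ℝ) ≤ Kg * s := by exact_mod_cast hT
      have h4 : (R.card : ℝ) * n * ε ≤ k * Kg * s := by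
        calc (R.card : ℝ) * n * ε = (R.card : ℝ) * (ε * n) := by ring
          _ ≤ k * (T.card : ℝ) := h1.trans h2
          _ ≤ k * (Kg * s) := mul_le_mul_of_nonneg_left h3 hkpos.le
          _ = _ := by ring
      calc (R.card : ℝ) * n = ((R.card : ℝ) * n * ε) / ε := by field_simp
        _ ≤ (k * Kg * s) / ε := div_le_div_of_nonneg_right h4 hε.le
        _ = (k * Kg / ε) * s := by ring
        _ ≤ K * s := mul_le_mul_of_nonneg_right hK hspos.le) (by
      apply hB
      intro f hf
      rw [hz]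
      beta_reduce
      split_ifs with h
      · calc |(tr (y f / v) : ℝ)| ≤ |y f / v| := tr_abs_le _
          _ = |y f| / v := by rw [abs_div, abs_of_pos hv0]
      · simp only [Int.cast_zero, abs_zero]
        positivity) hcount
  -- the edges found by Q5
  set Z₁ := H₁.filter (fun e => (2 : ℝ) ^ g / 4 ^ k - k ≤ |fs k (fun f => (z f : ℝ)) e|) with hZ₁
  set L := Ts.biUnion (fun f => (H₁.filter (fun e => f ⊆ e)) \ H') with hL
  have hTsF' : ∀ f ∈ Ts, f ∈ F' := by
    intro f hf
    apply hy
    rw [hTs, Finset.mem_filter, hTd, Finset.mem_filter] at hf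
    intro h0
    have := hf.1.2
    rw [h0, abs_zero] at this
    linarith
  have hLcard : (L.card : ℝ) ≤ 2 * (Kg * s) := by
    have h1 : L.card ≤ Ts.card * 2 := Finset.card_biUnion_le_card_mul _ _ _
      (fun f hf => hloss f (hTsF' f hf))
    have h2 : Ts.card ≤ T.card := Finset.card_filter_le _ _
    have h3 : L.card ≤ 2 * (Kg * s) := by
      calc L.card ≤ Ts.card * 2 := h1
        _ ≤ (Kg * s) * 2 := Nat.mul_le_mul_right 2 (h2.trans hT)
        _ = _ := by ring
    exact_mod_cast h3
  have hcov : Z₁ ⊆ Hv ∪ LP ∪ L := by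
    intro e he
    rw [hZ₁, Finset.mem_filter] at he
    have heE : e ∈ edges n k := hH₂ (h12 he.1)
    have ha0 : (0 : ℝ) < 2 ^ g / 4 ^ k - k := by
      rw [sub_pos, lt_div_iff₀ h4k]
      nlinarith [mul_pos hkpos h4k]
    -- some facet in Ts
    obtain ⟨f, hf, hfz⟩ : ∃ f ∈ e.powersetCard (k - 1), (z f : ℝ) ≠ 0 := by
      by_contra hno
      push Not at hno
      have h0 : fs k (fun f => (z f : ℝ)) e = 0 := by
        unfold fs
        exact Finset.sum_eq_zero hno
      rw [h0, abs_zero] at he
      linarith [he.2]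
    rw [Finset.mem_powersetCard] at hf
    have hfTs : f ∈ Ts := by
      by_contra hc
      rw [hz] at hfz
      beta_reduce at hfz
      rw [if_neg hc] at hfz
      exact hfz (by norm_num)
    rw [Finset.mem_union, Finset.mem_union]
    by_cases hbad : ∃ f' ∈ T, f' ∉ Ts ∧ f' ⊆ e
    · left; right
      obtain ⟨f', hf'T, hf's, hf'e⟩ := hbad
      rw [hLP, Finset.mem_inter]
      refine ⟨h12 he.1, hlight e heE f' hf'T hf's f (Finset.mem_filter.mp hfTs).1 ?_ hf'e hf.1⟩
      rintro rfl
      exact hf's hfTs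
    · push Not at hbad
      by_cases heH' : e ∈ H'
      · left; left
        rw [hHv, Finset.mem_filter]
        refine ⟨heH', ?_⟩
        have h1 : |fs k y e - fs k ys e| ≤ k * v := by
          unfold fs
          rw [← Finset.sum_sub_distrib]
          calc _ ≤ ∑ f ∈ e.powersetCard (k - 1), |y f - ys f| := Finset.abs_sum_le_sum_abs _ _
            _ ≤ ∑ f ∈ e.powersetCard (k - 1), v := by
                apply Finset.sum_le_sum
                intro f' hf'
                rw [Finset.mem_powersetCard] at hf'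
                rw [hys]
                beta_reduce
                split_ifs with h
                · simp [hv0.le]
                · rw [sub_zero]
                  by_contra hc
                  push Not at hc
                  have : f' ∈ T := by
                    rw [hTd, Finset.mem_filter]
                    exact ⟨mem_facets.mpr hf'.2, hc.le⟩
                  exact hbad f' this h hf'.1
            _ = k * v := by
                rw [Finset.sum_const, nsmul_eq_mul, card_facets_of_edge hk (mem_edges.mp heE)]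
        have h2 := hround e heE
        have h3 : v * |fs k (fun f => (z f : ℝ)) e| ≤ |fs k y e| + 2 * (k * v) := by
          have h4 : v * fs k (fun f => (z f : ℝ)) e = fs k y e - (fs k y e - fs k ys e)
              - (fs k ys e - v * fs k (fun f => (z f : ℝ)) e) := by ring
          calc v * |fs k (fun f => (z f : ℝ)) e| = |v * fs k (fun f => (z f : ℝ)) e| := by
                rw [abs_mul, abs_of_pos hv0]
            _ = |fs k y e - (fs k y e - fs k ys e)
              - (fs k ys e - v * fs k (fun f => (z f : ℝ)) e)| := congrArg abs h4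
            _ ≤ |fs k y e - (fs k y e - fs k ys e)|
              + |fs k ys e - v * fs k (fun f => (z f : ℝ)) e| := abs_sub _ _
            _ ≤ (|fs k y e| + |fs k y e - fs k ys e|)
              + |fs k ys e - v * fs k (fun f => (z f : ℝ)) e| := by
                  gcongr; exact abs_sub _ _
            _ ≤ _ := by linarith
        have h5 : v * (2 ^ g / 4 ^ k - k) ≤ v * |fs k (fun f => (z f : ℝ)) e| :=
          mul_le_mul_of_nonneg_left he.2 hv0.le
        have h6 : v * (2 ^ g / 4 ^ k - k) = u / 4 ^ k - k * v := by rw [← hvu]; ring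
        have h7 : (1 / 4 ^ k / 4) * u = u / 4 ^ k / 4 := by ring
        rw [h7]
        linarith
      · right
        rw [hL, Finset.mem_biUnion]
        exact ⟨f, hfTs, Finset.mem_sdiff.mpr ⟨Finset.mem_filter.mpr ⟨he.1, hf.1⟩, heH'⟩⟩
  have hfin : (Z₁.card : ℝ) ≤ Hv.card + LP.card + L.card := by
    have h1 := Finset.card_le_card hcov
    have h2 := Finset.card_union_le (Hv ∪ LP) L
    have h3 := Finset.card_union_le Hv LP
    have h4 : Z₁.card ≤ Hv.card + LP.card + L.card := by omega
    exact_mod_cast h4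
  have hslog : 0 < s * Real.log n := by positivity
  have e1 : (Hv.card : ℝ) < c₁ / 32 * (s * Real.log n) := by
    calc (Hv.card : ℝ) < c₂ * Real.log n * s := hcon
      _ = c₂ * (s * Real.log n) := by ring
      _ ≤ c₁ / 32 * (s * Real.log n) := mul_le_mul_of_nonneg_right h32' hslog.le
  have e2 : (LP.card : ℝ) ≤ c₁ / 32 * (s * Real.log n) := by
    calc (LP.card : ℝ) ≤ c₃ * Kg * s * Real.log n := hLPcard
      _ = (c₃ * Kg) * (s * Real.log n) := by ring
      _ ≤ c₁ / 32 * (s * Real.log n) := mul_le_mul_of_nonneg_right h32 hslog.le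
  have e3 : (L.card : ℝ) ≤ c₁ / 32 * (s * Real.log n) := by
    calc (L.card : ℝ) ≤ 2 * (Kg * s) := hLcard
      _ = (2 * Kg) * s := by ring
      _ ≤ (c₁ / 32 * Real.log n) * s := mul_le_mul_of_nonneg_right h32'' hspos.le
      _ = _ := by ring
  have e4 : c₁ / 8 * (s * Real.log n) ≤ Z₁.card := by
    calc c₁ / 8 * (s * Real.log n) = c₁ / 8 * s * Real.log n := by ring
      _ ≤ _ := hQ
  have e5 : 0 < c₁ * (s * Real.log n) := by positivity
  linarith

end

end Pool.Agent.TH948.HT
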