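import Pool.Agent.TH948.HT.Core
import Pool.Agent.TH494.HT2
import Pool.Agent.TH81.J3930

set_option autoImplicit false
set_option linter.unusedSectionVars false

/-!
# The L1 inequality
-/

namespace Pool.Agent.TH948.HT

open Finset
open scoped Classical
open Pool.Agent.TH965.Spread Pool.Agent.TH948.KK Pool.Agent.TH948.BD Pool.Agent.TH494.HT2

/-- The L1 inequality for the facet-edge incidence of a hypergraph with the pseudorandom properties
`Q4` and `Q5`. -/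
theorem core {k : ℕ} (hk : 2 ≤ k) : ∃ a c₁ c₃ c : ℝ, 0 < a ∧ 0 < c₁ ∧ 0 < c₃ ∧ 0 < c ∧
    ∀ ε : ℝ, 0 < ε → ∃ (K : ℝ) (B : ℕ), 0 < K ∧ ∀ᶠ n : ℕ in Filter.atTop,
      ∀ H₁ H' H₂ : Finset (Finset (Fin n)), H₁ ⊆ H₂ → H' ⊆ H₂ → H₂ ⊆ edges n k →
        Q4 k ε c₃ H₂ → Q5 k a c₁ K (c₁ / 8) B H₁ →
        ∀ F' ⊆ facets n k, (∀ f ∈ F', (1 / 40 : ℝ) * Real.log n ≤ deg H' f) →
          (∀ f ∈ F', ((H₁.filter (fun e => f ⊆ e)) \ H').card ≤ 2) →
          ∀ y : Finset (Fin n) → ℝ, (∀ f, y f ≠ 0 → f ∈ F') →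
            c * Real.log n * ∑ f ∈ facets n k, |y f| ≤ ∑ e ∈ H', |fs k y e| := by
  have hkpos : (0 : ℝ) < k := by
    have : 0 < k := by omega
    exact_mod_cast this
  obtain ⟨Kg, B, hgb⟩ := good_bounds (3 * k + 2)
  have hg : (k : ℝ) * (4 * 4 ^ k) ≤ 2 ^ (3 * k + 2) := by
    have h1 : (k : ℝ) ≤ 2 ^ k := by exact_mod_cast (Nat.lt_two_pow_self (n := k)).le
    have h2 : (2 : ℝ) ^ (3 * k + 2) = 2 ^ k * (4 * 4 ^ k) := by
      have : (4 : ℝ) = 2 ^ 2 := by norm_num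
      rw [this, ← pow_mul, ← pow_add, ← pow_add]
      congr 1; ring
    rw [h2]
    exact mul_le_mul_of_nonneg_right h1 (by positivity)
  set c₁ : ℝ := 1 / (2 * (4 * (k : ℝ)) ^ k) with hc₁
  have hc₁0 : 0 < c₁ := by positivity
  set c₂ : ℝ := min (c₁ / 32) (1 / (160 * k)) with hc₂
  have hc₂0 : 0 < c₂ := lt_min (by positivity) (by positivity)
  set c₃ : ℝ := min (c₁ / 32) (1 / (160 * k)) / (Kg + 1) with hc₃
  have hc₃0 : 0 < c₃ := by positivity
  have hc₃K : c₃ * Kg ≤ min (c₁ / 32) (1 / (160 * k)) := by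
    rw [hc₃, div_mul_eq_mul_div, div_le_iff₀ (by positivity)]
    apply mul_le_mul_of_nonneg_left _ hc₂0.le
    linarith
  have ha0 : (0 : ℝ) < 2 ^ (3 * k + 2) / 4 ^ k - k := by
    rw [sub_pos, lt_div_iff₀ (by positivity)]
    have : (0 : ℝ) < k * 4 ^ k := by positivity
    nlinarith
  refine ⟨2 ^ (3 * k + 2) / 4 ^ k - k, c₁, c₃, (1 / 4 ^ k / 4) * c₂ / 20, ha0, hc₁0, hc₃0,
    by positivity, ?_⟩
  intro ε hε
  refine ⟨k * Kg / ε + 1, B, by positivity, ?_⟩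
  have hlogT : Filter.Tendsto (fun n : ℕ => Real.log (n : ℝ)) Filter.atTop Filter.atTop :=
    Real.tendsto_log_atTop.comp tendsto_natCast_atTop_atTop
  filter_upwards [Filter.eventually_ge_atTop (2 * k), hlogT.eventually_gt_atTop 0,
    hlogT.eventually_ge_atTop (2 * (Kg : ℝ) / (c₁ / 32))] with n hn hlog hlog2
  intro H₁ H' H₂ h12 h'2 hH₂ hQ4 hQ5 F' _ hdeg hloss y hy
  have key := levels (facets n k) y H' (fun e => |fs k y e|) (fun e => abs_nonneg _)
    (1 / 4 ^ k / 4) (c₂ * Real.log n) (by positivity) (by positivity) (by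
      intro j hj
      obtain ⟨hT, hB⟩ := hgb (facets n k) y j hj
      exact core_star hk hn (3 * k + 2) Kg B y j hj.1 (by exact_mod_cast hT)
        (by exact_mod_cast hB) ε c₂ c₃ (k * Kg / ε + 1) hε hc₂0 hc₃0 hg hlog
        (by
          have h1 : c₂ + c₃ * Kg ≤ 1 / (160 * k) + 1 / (160 * k) :=
            add_le_add (min_le_right _ _) (hc₃K.trans (min_le_right _ _))
          calc k * (c₂ + c₃ * Kg) ≤ k * (1 / (160 * k) + 1 / (160 * k)) :=
                mul_le_mul_of_nonneg_left h1 hkpos.le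
            _ = 1 / 80 := by field_simp; norm_num)
        (hc₃K.trans (min_le_left _ _)) (min_le_left _ _)
        (by
          rw [div_le_iff₀ (by positivity)] at hlog2
          linarith)
        (by linarith) H₁ H' H₂ h12 h'2 hH₂ hQ4 hQ5 F' hdeg hloss hy)
  calc (1 / 4 ^ k / 4) * c₂ / 20 * Real.log n * ∑ f ∈ facets n k, |y f|
      = (1 / 4 ^ k / 4) * (c₂ * Real.log n) / 20 * ∑ f ∈ facets n k, |y f| := by ring
    _ ≤ _ := key

end Pool.Agent.TH948.HT
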